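import Pool.Agent.MP_b5696c_al.Tab

/-!
The permutation group generated by the transvections and its basic properties.
-/

set_option autoImplicit false

namespace Pool.Agent.MPb5696c

/-- Permutations of the 40 points. -/
abbrev P := Equiv.Perm (Fin 40)

theorem beq_eq {a b : ℕ} : Nat.beq a b = true ↔ a = b := Nat.beq_eq ▸ Iff.rfl

theorem op_lt {x y : ℕ} (hx : x < 40) (hy : y < 40) : op x y < 40 := by
  have h := (allb_iff _ _).mp ((allb_iff _ _).mp check_op x hx) y hy
  by_contra hc
  have : Nat.blt (op x y) 40 = false := by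
    cases h' : Nat.blt (op x y) 40 with
    | false => rfl
    | true => exact absurd (Nat.le_of_ble_eq_true h') hc
  rw [this] at h
  simp at h

theorem op3 {x y : ℕ} (hx : x < 40) (hy : y < 40) : op x (op x (op x y)) = y := by
  have h := (allb_iff _ _).mp ((allb_iff _ _).mp check_op x hx) y hy
  cases h' : Nat.blt (op x y) 40 with
  | false => rw [h'] at h; simp at h
  | true => rw [h'] at h; simp only [cond_true] at h; exact Nat.eq_of_beq_eq_true h

/-- The quandle operation on the points. -/
def opF (x y : Fin 40) : Fin 40 := ⟨op x y, op_lt x.2 y.2⟩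

/-- The transvection with centre `x`. -/
def T (x : Fin 40) : P where
  toFun := opF x
  invFun y := opF x (opF x y)
  left_inv y := Fin.ext (op3 x.2 y.2)
  right_inv y := Fin.ext (op3 x.2 y.2)

theorem T_apply (x y : Fin 40) : T x y = opF x y := rfl

theorem T_val (x y : Fin 40) : ((T x y : Fin 40) : ℕ) = op x y := rfl

theorem T_cube (x : Fin 40) : T x * T x * T x = 1 := by
  ext y
  exact op3 x.2 y.2

/-- The permutation `g` is coded by entry `k` of the family `C`. -/
def Rep (g : P) (C k : ℕ) : Prop := ∀ y : Fin 40, ((g y : Fin 40) : ℕ) = ap C k y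

theorem Rep.mul {g h : P} {C k D l : ℕ} (hg : Rep g C k) (hh : Rep h D l) (y : Fin 40) :
    (((g * h) y : Fin 40) : ℕ) = ap C k (ap D l y) := by
  rw [Equiv.Perm.mul_apply, hg (h y), hh y]

theorem Rep.unique {g h : P} {C k : ℕ} (hg : Rep g C k) (hh : Rep h C k) : g = h := by
  ext y
  rw [hg y, hh y]

theorem Rep.one {C k : ℕ} (h : idb C k = true) : Rep 1 C k := by
  intro y
  exact (Nat.eq_of_beq_eq_true ((allb_iff _ _).mp h y y.2)).symm

/-- Closure of a coded family under multiplication gives all elements of the closure. -/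
theorem family_of_mem (C m : ℕ) (g1 g2 : P) (r1 : Rep g1 C 1) (r2 : Rep g2 C 2)
    (h0 : idb C 0 = true) (hm : 0 < m) (hcl : closedb C m = true) :
    ∀ g ∈ Subgroup.closure ({g1, g2} : Set P), ∃ k < m, Rep g C k := by
  have key : ∀ x ∈ ({g1, g2} : Set P), ∀ g : P, (∃ k < m, Rep g C k) →
      ∃ k < m, Rep (x * g) C k := by
    intro x hx g hg
    obtain ⟨k, hk, hr⟩ := hg
    have aux : ∀ i < 2, Rep x C (i + 1) → ∃ k < m, Rep (x * g) C k := by
      intro i hi hri
      have h1 := (allb_iff _ _).mp ((allb_iff _ _).mp hcl i hi) k hk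
      obtain ⟨k', hk', h2⟩ := (anyb_iff _ _).mp h1
      refine ⟨k', hk', fun y => ?_⟩
      rw [hri.mul hr y]
      exact Nat.eq_of_beq_eq_true ((allb_iff _ _).mp h2 y y.2)
    rcases hx with hx | hx
    · subst hx; exact aux 0 (by norm_num) r1
    · rw [Set.mem_singleton_iff] at hx
      subst hx; exact aux 1 (by norm_num) r2
  have keypow : ∀ x ∈ ({g1, g2} : Set P), ∀ n : ℕ, ∀ g : P, (∃ k < m, Rep g C k) →
      ∃ k < m, Rep (x ^ n * g) C k := by
    intro x hx n
    induction n with
    | zero => intro g hg; simpa using hg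
    | succ n ih =>
      intro g hg
      have := key x hx _ (ih g hg)
      rwa [← mul_assoc, ← pow_succ'] at this
  intro g hg
  induction hg using Subgroup.closure_induction_left with
  | one => exact ⟨0, hm, Rep.one h0⟩
  | mul_left x hx y hy ih => exact key x hx y ih
  | inv_mul_cancel x hx y hy ih =>
    have hfin : IsOfFinOrder x := isOfFinOrder_of_finite x
    obtain ⟨n, hn, hxn⟩ := (isOfFinOrder_iff_pow_eq_one).mp hfin
    have hinv : x⁻¹ = x ^ (n - 1) := by
      rw [eq_comm, ← mul_eq_one_iff_eq_inv, ← pow_succ, Nat.sub_add_cancel hn]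
      exact hxn
    rw [hinv]
    exact keypow x hx (n - 1) y ih

/-- Each coded member is realised in the closure. -/
theorem family_realised (C m : ℕ) (g1 g2 : P) (r1 : Rep g1 C 1) (r2 : Rep g2 C 2)
    (h0 : idb C 0 = true) (hpar : parentb C m = true) :
    ∀ k < m, ∃ g ∈ Subgroup.closure ({g1, g2} : Set P), Rep g C k := by
  intro k
  induction k using Nat.strong_induction_on with
  | _ k ih =>
    intro hk
    by_cases hk0 : k = 0
    · subst hk0
      exact ⟨1, Subgroup.one_mem _, Rep.one h0⟩
    · have h1 := (allb_iff _ _).mp hpar k hk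
      have hb : Nat.beq k 0 = false := by
        cases h' : Nat.beq k 0 with
        | false => rfl
        | true => exact absurd (Nat.eq_of_beq_eq_true h') hk0
      rw [hb] at h1
      simp only [cond_false] at h1
      obtain ⟨k', hk', h2⟩ := (anyb_iff _ _).mp h1
      obtain ⟨i, hi, h3⟩ := (anyb_iff _ _).mp h2
      obtain ⟨g, hg, hr⟩ := ih k' hk' (lt_trans hk' hk)
      have aux : ∀ x ∈ ({g1, g2} : Set P), Rep x C (i + 1) →
          ∃ g ∈ Subgroup.closure ({g1, g2} : Set P), Rep g C k := by
        intro x hx hrx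
        refine ⟨x * g, Subgroup.mul_mem _ (Subgroup.subset_closure hx) hg, fun y => ?_⟩
        rw [hrx.mul hr y]
        exact Nat.eq_of_beq_eq_true ((allb_iff _ _).mp h3 y y.2)
      have hi' : i = 0 ∨ i = 1 := by omega
      rcases hi' with h | h
      · subst h; exact aux g1 (by simp) r1
      · subst h; exact aux g2 (by simp) r2

theorem family_card (C m : ℕ) (g1 g2 : P) (r1 : Rep g1 C 1) (r2 : Rep g2 C 2)
    (h0 : idb C 0 = true) (hpar : parentb C m = true) (hd : distinctb C m = true) :
    m ≤ Nat.card (Subgroup.closure ({g1, g2} : Set P)) := by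
  choose! e he1 he2 using family_realised C m g1 g2 r1 r2 h0 hpar
  have hinj : Function.Injective
      (fun k : Fin m => (⟨e k, he1 k k.2⟩ : Subgroup.closure ({g1, g2} : Set P))) := by
    have key : ∀ k k' : Fin m, (k' : ℕ) < k → e k ≠ e k' := by
      intro k k' hlt heq
      have h1 := (allb_iff _ _).mp ((allb_iff _ _).mp hd k k.2) k' hlt
      obtain ⟨y, hy, h2⟩ := (anyb_iff _ _).mp h1
      have e1 := he2 k k.2 ⟨y, hy⟩
      have e2 := he2 k' k'.2 ⟨y, hy⟩
      rw [heq] at e1
      simp only at e1 e2
      rw [e1] at e2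
      rw [e2] at h2
      simp at h2
    intro k k' h
    have h' : e k = e k' := congrArg Subtype.val h
    rcases lt_trichotomy (k : ℕ) (k' : ℕ) with hlt | heq | hgt
    · exact absurd h'.symm (key k' k hlt)
    · exact Fin.ext heq
    · exact absurd h' (key k k' hgt)
  have := Nat.card_le_card_of_injective _ hinj
  simpa using this

/-- The four generating points. -/
def bF (i : Fin 4) : Fin 40 := ![0, 13, 2, 6] i

theorem bF_val (i : Fin 4) : ((bF i : Fin 40) : ℕ) = bs i := by
  revert i; decide +kernel

/-- The group: generated by four transvections. -/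
def G : Subgroup P := Subgroup.closure (Set.range fun i : Fin 4 => T (bF i))

theorem gen_mem (i : Fin 4) : T (bF i) ∈ G := Subgroup.subset_closure ⟨i, rfl⟩

theorem gen_hom (i : Fin 4) (y z : Fin 40) :
    opF (bF i) (opF y z) = opF (opF (bF i) y) (opF (bF i) z) := by
  have h := (allb_iff _ _).mp ((allb_iff _ _).mp ((allb_iff _ _).mp check_hom i i.2) y y.2) z z.2
  have h2 := Nat.eq_of_beq_eq_true h
  apply Fin.ext
  show op (bF i) (op y z) = op (op (bF i) y) (op (bF i) z)
  rw [bF_val]
  exact h2

theorem G_hom {g : P} (hg : g ∈ G) : ∀ y z, g (opF y z) = opF (g y) (g z) := by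
  induction hg using Subgroup.closure_induction with
  | mem x hx =>
    obtain ⟨i, rfl⟩ := hx
    intro y z
    exact gen_hom i y z
  | one => intro y z; rfl
  | mul a b _ _ iha ihb =>
    intro y z
    rw [Equiv.Perm.mul_apply, ihb, iha]
    rfl
  | inv a _ ih =>
    intro y z
    apply a.injective
    rw [ih]
    simp

theorem G_conj {g : P} (hg : g ∈ G) (y : Fin 40) : g * T y * g⁻¹ = T (g y) := by
  ext z
  have h := G_hom hg y (g⁻¹ z)
  have h2 : g (g⁻¹ z) = z := by simp
  rw [h2] at h
  rw [T_apply, ← h]
  rfl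

theorem transitive (y : Fin 40) : ∃ g ∈ G, g 0 = y := by
  have key : ∀ k < 40, ∃ g ∈ G, ((g 0 : Fin 40) : ℕ) = od k := by
    intro k
    induction k using Nat.strong_induction_on with
    | _ k ih =>
      intro hk
      by_cases hk0 : k = 0
      · subst hk0
        exact ⟨1, Subgroup.one_mem _, by rw [check_ord_zero]; rfl⟩
      · have h1 := (allb_iff _ _).mp check_ord_parent k hk
        have hb : Nat.beq k 0 = false := by
          cases h' : Nat.beq k 0 with
          | false => rfl
          | true => exact absurd (Nat.eq_of_beq_eq_true h') hk0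
        rw [hb] at h1
        simp only [cond_false] at h1
        obtain ⟨k', hk', h2⟩ := (anyb_iff _ _).mp h1
        obtain ⟨i, hi, h3⟩ := (anyb_iff _ _).mp h2
        obtain ⟨g, hg, hr⟩ := ih k' hk' (lt_trans hk' hk)
        refine ⟨T (bF ⟨i, hi⟩) * g, Subgroup.mul_mem _ (gen_mem _) hg, ?_⟩
        rw [Equiv.Perm.mul_apply, T_val, hr, bF_val]
        exact Nat.eq_of_beq_eq_true h3
  obtain ⟨k, hk, h⟩ := (anyb_iff _ _).mp ((allb_iff _ _).mp check_ord_surj y y.2)
  obtain ⟨g, hg, hr⟩ := key k hk
  refine ⟨g, hg, Fin.ext ?_⟩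
  rw [hr]
  exact Nat.eq_of_beq_eq_true h

theorem T_mem (y : Fin 40) : T y ∈ G := by
  obtain ⟨g, hg, h⟩ := transitive y
  have h0 : T 0 ∈ G := gen_mem 0
  have := G_conj hg 0
  rw [h] at this
  rw [← this]
  exact Subgroup.mul_mem _ (Subgroup.mul_mem _ hg h0) (Subgroup.inv_mem _ hg)

/-- An element of `G` fixing the four base points is trivial. -/
theorem base_fix {g : P} (hg : g ∈ G) (h : ∀ i, g (bF i) = bF i) : g = 1 := by
  have key : ∀ k < 40, ∀ y : Fin 40, (y : ℕ) = od k → g y = y := by
    intro k
    induction k using Nat.strong_induction_on with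
    | _ k ih =>
      intro hk y hy
      by_cases hk0 : k = 0
      · subst hk0
        rw [check_ord_zero] at hy
        have : y = bF 0 := Fin.ext hy
        rw [this]
        exact h 0
      · have h1 := (allb_iff _ _).mp check_ord_parent k hk
        have hb : Nat.beq k 0 = false := by
          cases h' : Nat.beq k 0 with
          | false => rfl
          | true => exact absurd (Nat.eq_of_beq_eq_true h') hk0
        rw [hb] at h1
        simp only [cond_false] at h1
        obtain ⟨k', hk', h2⟩ := (anyb_iff _ _).mp h1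
        obtain ⟨i, hi, h3⟩ := (anyb_iff _ _).mp h2
        have h3' := Nat.eq_of_beq_eq_true h3
        -- the parent point
        have hk40 : k' < 40 := lt_trans hk' hk
        -- `od k' < 40` since it is the value of a point
        have hex : ∃ z : Fin 40, (z : ℕ) = od k' := by
          have hlt : od k' < 40 := by
            have : ∀ k < 40, od k < 40 := by
              have hc : allb 40 (fun k => Nat.blt (od k) 40) = true := by decide +kernel
              intro k hk
              exact Nat.le_of_ble_eq_true ((allb_iff _ _).mp hc k hk)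
            exact this k' hk40
          exact ⟨⟨od k', hlt⟩, rfl⟩
        obtain ⟨z, hz⟩ := hex
        have hgz := ih k' hk' hk40 z hz
        have hyz : y = opF (bF ⟨i, hi⟩) z := by
          apply Fin.ext
          rw [hy, ← h3']
          show op (bs i) (od k') = op (bF ⟨i, hi⟩) z
          rw [bF_val, hz]
        rw [hyz, G_hom hg, h, hgz]
  ext y
  obtain ⟨k, hk, h'⟩ := (anyb_iff _ _).mp ((allb_iff _ _).mp check_ord_surj y y.2)
  rw [key k hk y (Nat.eq_of_beq_eq_true h').symm]
  rfl

end Pool.Agent.MPb5696c
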