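import Pool.Agent.MP_b5696c_al.Grp

/-!
The order of the group is at most `25920`; conjugacy invariants.
-/

set_option autoImplicit false

namespace Pool.Agent.MPb5696c

theorem inv_app (k : P) (y : Fin 40) : k⁻¹ (k y) = y := k.symm_apply_apply y

theorem app_inv (k : P) (y : Fin 40) : k (k⁻¹ y) = y := k.apply_symm_apply y

theorem cnt_eq (n : ℕ) (p : ℕ → Bool) :
    (Finset.univ.filter fun y : Fin n => p y = true).card = cntb n p := by
  induction n with
  | zero => simp [cntb]
  | succ n ih =>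
    have h : cntb (n + 1) p = cond (p n) (cntb n p + 1) (cntb n p) := rfl
    rw [h, Finset.card_filter, Fin.sum_univ_castSucc, ← ih, Finset.card_filter]
    cases hp : p n with
    | false => simp [hp]
    | true => simp [hp]

theorem card_step (Γ Γ' : Subgroup P) (x : Fin 40) (Y : Finset (Fin 40))
    (hY : ∀ g ∈ Γ, g x ∈ Y) (hΓ : ∀ g ∈ Γ, g x = x → g ∈ Γ') :
    Nat.card Γ ≤ Y.card * Nat.card Γ' := by
  classical
  let s : Fin 40 → P := fun y => if h : ∃ g ∈ Γ, g x = y then h.choose else 1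
  have hs : ∀ y, (∃ g ∈ Γ, g x = y) → s y ∈ Γ ∧ s y x = y := by
    intro y h
    have : s y = h.choose := dif_pos h
    rw [this]
    exact h.choose_spec
  let φ : Γ → Y × Γ' := fun g =>
    (⟨(g : P) x, hY g g.2⟩, ⟨(s ((g : P) x))⁻¹ * g, by
      have h := hs ((g : P) x) ⟨g, g.2, rfl⟩
      apply hΓ
      · exact Γ.mul_mem (Γ.inv_mem h.1) g.2
      · rw [Equiv.Perm.mul_apply, Equiv.Perm.inv_eq_iff_eq]
        exact h.2.symm⟩)
  have hφ : Function.Injective φ := by
    intro g g' h
    have h1 : (g : P) x = (g' : P) x := by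
      have := congrArg (fun z => ((z.1 : Y) : Fin 40)) h
      exact this
    have h2 : (s ((g : P) x))⁻¹ * (g : P) = (s ((g' : P) x))⁻¹ * (g' : P) := by
      have := congrArg (fun z => ((z.2 : Γ') : P)) h
      exact this
    rw [h1] at h2
    exact Subtype.ext (mul_left_cancel h2)
  have := Nat.card_le_card_of_injective φ hφ
  rw [Nat.card_prod] at this
  simpa using this

theorem not_beq {a b : ℕ} : Bool.not (Nat.beq a b) = true ↔ a ≠ b := by
  cases h : Nat.beq a b with
  | false =>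
    simp only [Bool.not_false, true_iff]
    intro hab
    subst hab
    simp at h
  | true =>
    have := Nat.eq_of_beq_eq_true h
    simp [this]

theorem beq_iff {a b : ℕ} : Nat.beq a b = true ↔ a = b :=
  ⟨Nat.eq_of_beq_eq_true, fun h => by rw [h]; simp⟩

/-- The set of points not orthogonal to `0`. -/
def Y2 : Finset (Fin 40) := Finset.univ.filter fun y => Bool.not (Nat.beq (op 0 y) y) = true

def Y3 : Finset (Fin 40) := Finset.univ.filter fun y : Fin 40 => cond (Nat.beq y 0) false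
    (cond (Nat.beq (op 0 y) y) (Bool.not (Nat.beq (op 13 y) y)) false) = true

def Y4 : Finset (Fin 40) := Finset.univ.filter fun y : Fin 40 =>
    cond (Nat.beq (op 0 y) y) (cond (Nat.beq (op 13 y) y) false
      (cond (Nat.beq (op 2 y) y) false
        (Nat.beq (op 13 (op 2 y)) (op 2 y)))) false = true

theorem card_Y2 : Y2.card = 27 := (cnt_eq 40 _).trans check_Y2
theorem card_Y3 : Y3.card = 8 := (cnt_eq 40 _).trans check_Y3
theorem card_Y4 : Y4.card = 3 := (cnt_eq 40 _).trans check_Y4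

theorem mem_Y2 (y : Fin 40) : y ∈ Y2 ↔ opF 0 y ≠ y := by
  unfold Y2
  rw [Finset.mem_filter, not_beq]
  simp only [Finset.mem_univ, true_and]
  rw [not_iff_not, Fin.ext_iff]
  rfl

theorem mem_Y3 (y : Fin 40) : y ∈ Y3 ↔ y ≠ 0 ∧ opF 0 y = y ∧ opF 13 y ≠ y := by
  unfold Y3
  rw [Finset.mem_filter]
  simp only [Finset.mem_univ, true_and]
  have e0 : (y = 0) ↔ ((y : ℕ) = 0) := by rw [Fin.ext_iff]; rfl
  have e1 : (opF 0 y = y) ↔ (op 0 y = y) := by rw [Fin.ext_iff]; rfl
  have e2 : (opF 13 y = y) ↔ (op 13 y = y) := by rw [Fin.ext_iff]; rfl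
  rw [ne_eq, e0, e1, ne_eq, e2, ← beq_iff (a := (y : ℕ)), ← beq_iff (a := op 0 y),
    ← beq_iff (a := op 13 y)]
  cases Nat.beq (y : ℕ) 0 <;> cases Nat.beq (op 0 y) y <;> cases Nat.beq (op 13 y) y <;> simp

theorem mem_Y4 (y : Fin 40) : y ∈ Y4 ↔ opF 0 y = y ∧ opF 13 y ≠ y ∧ opF 2 y ≠ y ∧
    opF 13 (opF 2 y) = opF 2 y := by
  unfold Y4
  rw [Finset.mem_filter]
  simp only [Finset.mem_univ, true_and]
  have e1 : (opF 0 y = y) ↔ (op 0 y = y) := by rw [Fin.ext_iff]; rfl
  have e2 : (opF 13 y = y) ↔ (op 13 y = y) := by rw [Fin.ext_iff]; rfl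
  have e3 : (opF 2 y = y) ↔ (op 2 y = y) := by rw [Fin.ext_iff]; rfl
  have e4 : (opF 13 (opF 2 y) = opF 2 y) ↔ (op 13 (op 2 y) = op 2 y) := by
    rw [Fin.ext_iff]; rfl
  rw [ne_eq, ne_eq, e1, e2, e3, e4, ← beq_iff (a := op 0 y), ← beq_iff (a := op 13 y),
    ← beq_iff (a := op 2 y), ← beq_iff (a := op 13 (op 2 y))]
  cases Nat.beq (op 0 y) y <;> cases Nat.beq (op 13 y) y <;> cases Nat.beq (op 2 y) y <;>
    cases Nat.beq (op 13 (op 2 y)) (op 2 y) <;> simp

/-- The stabiliser of a point. -/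
abbrev St (x : Fin 40) : Subgroup P := MulAction.stabilizer P x

theorem mem_St (x : Fin 40) (g : P) : g ∈ St x ↔ g x = x := Iff.rfl

theorem card_G_le : Nat.card G ≤ 25920 := by
  have h13 : (13 : Fin 40) ∈ Y2 := by rw [mem_Y2]; decide +kernel
  have h2 : (2 : Fin 40) ∈ Y3 := by rw [mem_Y3]; decide +kernel
  have h6 : (6 : Fin 40) ∈ Y4 := by rw [mem_Y4]; decide +kernel
  have s1 : Nat.card G ≤ (Finset.univ : Finset (Fin 40)).card * Nat.card (G ⊓ St 0 : Subgroup P) :=
    card_step G (G ⊓ St 0) 0 Finset.univ (fun _ _ => Finset.mem_univ _)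
      (fun g hg h => ⟨hg, h⟩)
  have s2 : Nat.card (G ⊓ St 0 : Subgroup P) ≤ Y2.card * Nat.card (G ⊓ St 0 ⊓ St 13 : Subgroup P) := by
    apply card_step _ _ 13 Y2
    · rintro g ⟨hg, h0⟩
      have h0' : g 0 = 0 := h0
      rw [mem_Y2] at h13 ⊢
      intro hc
      apply h13
      apply g.injective
      rw [G_hom hg, h0', hc]
    · intro g hg h
      exact ⟨hg, h⟩
  have s3 : Nat.card (G ⊓ St 0 ⊓ St 13 : Subgroup P) ≤
      Y3.card * Nat.card (G ⊓ St 0 ⊓ St 13 ⊓ St 2 : Subgroup P) := by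
    apply card_step _ _ 2 Y3
    · rintro g ⟨⟨hg, h0⟩, h13'⟩
      have h0' : g 0 = 0 := h0
      have h13'' : g 13 = 13 := h13'
      rw [mem_Y3] at h2 ⊢
      obtain ⟨a1, a2, a3⟩ := h2
      refine ⟨?_, ?_, ?_⟩
      · intro hc
        apply a1
        apply g.injective
        rw [hc, h0']
      · have := congrArg g a2
        rwa [G_hom hg, h0'] at this
      · intro hc
        apply a3
        apply g.injective
        rw [G_hom hg, h13'', hc]
    · intro g hg h
      exact ⟨hg, h⟩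
  have s4 : Nat.card (G ⊓ St 0 ⊓ St 13 ⊓ St 2 : Subgroup P) ≤
      Y4.card * Nat.card (⊥ : Subgroup P) := by
    apply card_step _ _ 6 Y4
    · rintro g ⟨⟨⟨hg, h0⟩, h13'⟩, h2'⟩
      have h0' : g 0 = 0 := h0
      have h13'' : g 13 = 13 := h13'
      have h2'' : g 2 = 2 := h2'
      rw [mem_Y4] at h6 ⊢
      obtain ⟨a1, a2, a3, a4⟩ := h6
      refine ⟨?_, ?_, ?_, ?_⟩
      · have := congrArg g a1
        rwa [G_hom hg, h0'] at this
      · intro hc
        apply a2
        apply g.injective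
        rw [G_hom hg, h13'', hc]
      · intro hc
        apply a3
        apply g.injective
        rw [G_hom hg, h2'', hc]
      · have := congrArg g a4
        rwa [G_hom hg, G_hom hg, h13'', h2''] at this
    · rintro g ⟨⟨⟨hg, h0⟩, h13'⟩, h2'⟩ h
      have h0' : g 0 = 0 := h0
      have h13'' : g 13 = 13 := h13'
      have h2'' : g 2 = 2 := h2'
      rw [Subgroup.mem_bot]
      apply base_fix hg
      intro i
      fin_cases i
      · exact h0'
      · exact h13''
      · exact h2''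
      · exact h
  rw [card_Y2] at s2
  rw [card_Y3] at s3
  rw [card_Y4, Subgroup.card_bot] at s4
  rw [Finset.card_univ, Fintype.card_fin] at s1
  omega

/-! ### Conjugacy invariants -/

/-- Number of fixed points. -/
def f1 (g : P) : ℕ := (Finset.univ.filter fun y : Fin 40 => g y = y).card

/-- Number of points orthogonal to their image. -/
def f2 (g : P) : ℕ := (Finset.univ.filter fun y : Fin 40 => opF y (g y) = g y).card

/-- Number of fixed points of the square. -/
def f3 (g : P) : ℕ := (Finset.univ.filter fun y : Fin 40 => g (g y) = y).card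

/-- The conjugation invariant property separating the two families. -/
def Phi (g : P) : Prop := f1 g = 1 ∨ f1 g = 13 ∨ (f1 g = 4 ∧ (f2 g = 22 ∨ f3 g = 8))

theorem f1_conj (k g : P) : f1 (k * g * k⁻¹) = f1 g := by
  unfold f1
  apply Finset.card_bij' (fun y _ => k⁻¹ y) (fun y _ => k y)
  · intro y hy
    rw [Finset.mem_filter] at hy ⊢
    refine ⟨Finset.mem_univ _, ?_⟩
    have := hy.2
    rw [Equiv.Perm.mul_apply, Equiv.Perm.mul_apply] at this
    rw [Equiv.Perm.eq_inv_iff_eq]
    exact this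
  · intro y hy
    rw [Finset.mem_filter] at hy ⊢
    refine ⟨Finset.mem_univ _, ?_⟩
    rw [Equiv.Perm.mul_apply, Equiv.Perm.mul_apply, inv_app, hy.2]
  · intro y _; simp
  · intro y _; simp

theorem f3_conj (k g : P) : f3 (k * g * k⁻¹) = f3 g := by
  have h : ∀ g : P, f3 g = f1 (g * g) := fun g => rfl
  rw [h, h, ← f1_conj k (g * g)]
  congr 1
  group

theorem f2_conj {k : P} (hk : k ∈ G) (g : P) : f2 (k * g * k⁻¹) = f2 g := by
  unfold f2
  apply Finset.card_bij' (fun y _ => k⁻¹ y) (fun y _ => k y)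
  · intro y hy
    rw [Finset.mem_filter] at hy ⊢
    refine ⟨Finset.mem_univ _, ?_⟩
    have := hy.2
    rw [Equiv.Perm.mul_apply, Equiv.Perm.mul_apply] at this
    apply k.injective
    rw [G_hom hk]
    rwa [app_inv]
  · intro y hy
    rw [Finset.mem_filter] at hy ⊢
    refine ⟨Finset.mem_univ _, ?_⟩
    rw [Equiv.Perm.mul_apply, Equiv.Perm.mul_apply, inv_app, ← G_hom hk, hy.2]
  · intro y _; simp
  · intro y _; simp

theorem Phi_conj {k : P} (hk : k ∈ G) (g : P) : Phi (k * g * k⁻¹) ↔ Phi g := by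
  unfold Phi
  rw [f1_conj, f2_conj hk, f3_conj]

theorem phib_iff (g : P) (q : ℕ → ℕ) (hq : ∀ y : Fin 40, ((g y : Fin 40) : ℕ) = q y) :
    phib q = true ↔ Phi g := by
  have e1 : f1 g = cntb 40 fun y => Nat.beq (q y) y := by
    rw [← cnt_eq]
    unfold f1
    congr 1
    apply Finset.filter_congr
    intro y _
    rw [Fin.ext_iff, hq, beq_iff]
  have e2 : f2 g = cntb 40 fun y => (fun z => Nat.beq (op y z) z) (q y) := by
    rw [← cnt_eq]
    unfold f2
    congr 1
    apply Finset.filter_congr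
    intro y _
    rw [Fin.ext_iff, beq_iff, ← hq]
    rfl
  have e3 : f3 g = cntb 40 fun y => Nat.beq (q (q y)) y := by
    rw [← cnt_eq]
    unfold f3
    congr 1
    apply Finset.filter_congr
    intro y _
    rw [Fin.ext_iff, beq_iff, hq, hq]
  unfold Phi phib
  rw [e1, e2, e3]
  simp only
  generalize (cntb 40 fun y => Nat.beq (q y) y) = a
  generalize (cntb 40 fun y => Nat.beq (op y (q y)) (q y)) = b
  generalize (cntb 40 fun y => Nat.beq (q (q y)) y) = c
  rw [← beq_iff (a := a) (b := 1), ← beq_iff (a := a) (b := 13), ← beq_iff (a := a) (b := 4),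
    ← beq_iff (a := b), ← beq_iff (a := c)]
  cases Nat.beq a 1 <;> cases Nat.beq a 13 <;> cases Nat.beq a 4 <;> cases Nat.beq b 22 <;>
    cases Nat.beq c 8 <;> simp

end Pool.Agent.MPb5696c
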