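import Pool.Agent.MP_b5696c_al.Simple

/-!
The exact pair in `PSp(4,3)`.
-/

set_option autoImplicit false

namespace Pool.Agent.MPb5696c

theorem rep_word (C k : ℕ) (g : P) (q : ℕ → ℕ) (hq : ∀ y : Fin 40, ((g y : Fin 40) : ℕ) = q y)
    (h : allb 40 (fun y => Nat.beq (q y) (ap C k y)) = true) : Rep g C k := by
  intro y
  rw [hq]
  exact Nat.eq_of_beq_eq_true ((allb_iff _ _).mp h y y.2)

def n1 : P := T 2 * (T 1 * T 1)
def n2 : P := T 5 * (T 4 * T 4)
def h1 : P := T 5 * T 0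
def h2 : P := T 13 * T 7

theorem rep_n1 : Rep n1 CN 1 := rep_word _ _ _ _ (fun _ => rfl) check_n1
theorem rep_n2 : Rep n2 CN 2 := rep_word _ _ _ _ (fun _ => rfl) check_n2
theorem rep_h1 : Rep h1 CH 1 := rep_word _ _ _ _ (fun _ => rfl) check_h1
theorem rep_h2 : Rep h2 CH 2 := rep_word _ _ _ _ (fun _ => rfl) check_h2

/-- The extraspecial group of order 27. -/
def N : Subgroup P := Subgroup.closure {n1, n2}

/-- The alternating group of degree five. -/
def H : Subgroup P := Subgroup.closure {h1, h2}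

theorem N_le : N ≤ G := by
  unfold N
  rw [Subgroup.closure_le]
  rintro x (hx | hx)
  · rw [hx]; exact G.mul_mem (T_mem _) (G.mul_mem (T_mem _) (T_mem _))
  · rw [hx]; exact G.mul_mem (T_mem _) (G.mul_mem (T_mem _) (T_mem _))

theorem H_le : H ≤ G := by
  unfold H
  rw [Subgroup.closure_le]
  rintro x (hx | hx)
  · rw [hx]; exact G.mul_mem (T_mem _) (T_mem _)
  · rw [hx]; exact G.mul_mem (T_mem _) (T_mem _)

/-- Coset representatives for `A`. -/
def X (i : Fin 4) : P :=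
  ![1, T 7 * (T 1 * T 1), T 10 * (T 1 * T 1), T 7 * (T 7 * T 1)] i

/-- Coset representatives for `B`. -/
def U (i : Fin 4) : P :=
  ![1, T 27 * (T 24 * T 1), T 26 * (T 20 * T 10),
    T 27 * (T 24 * (T 1 * (T 26 * (T 20 * T 10))))] i

theorem rep_X (i : Fin 4) : Rep (X i) CX i := by
  fin_cases i
  · exact Rep.one check_x0
  · exact rep_word _ _ _ _ (fun _ => rfl) check_x1
  · exact rep_word _ _ _ _ (fun _ => rfl) check_x2
  · exact rep_word _ _ _ _ (fun _ => rfl) check_x3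

theorem rep_U (i : Fin 4) : Rep (U i) CU i := by
  fin_cases i
  · exact Rep.one check_u0
  · exact rep_word _ _ _ _ (fun _ => rfl) check_u1
  · exact rep_word _ _ _ _ (fun _ => rfl) check_u2
  · exact rep_word _ _ _ _ (fun _ => rfl) check_u3

theorem X_mem (i : Fin 4) : X i ∈ G := by
  fin_cases i
  · exact G.one_mem
  · exact G.mul_mem (T_mem _) (G.mul_mem (T_mem _) (T_mem _))
  · exact G.mul_mem (T_mem _) (G.mul_mem (T_mem _) (T_mem _))
  · exact G.mul_mem (T_mem _) (G.mul_mem (T_mem _) (T_mem _))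

theorem U_mem (i : Fin 4) : U i ∈ G := by
  fin_cases i
  · exact G.one_mem
  · exact G.mul_mem (T_mem _) (G.mul_mem (T_mem _) (T_mem _))
  · exact G.mul_mem (T_mem _) (G.mul_mem (T_mem _) (T_mem _))
  · exact G.mul_mem (T_mem _) (G.mul_mem (T_mem _) (G.mul_mem (T_mem _)
      (G.mul_mem (T_mem _) (G.mul_mem (T_mem _) (T_mem _)))))

theorem rep_quot (C D : ℕ) (Z : Fin 4 → P) (hZ : ∀ i, Rep (Z i) C i)
    (hc : quotb C D = true) (i j : Fin 4) : Rep (Z i * (Z j)⁻¹) D (4 * i + j) := by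
  intro y
  have h := (allb_iff _ _).mp ((allb_iff _ _).mp ((allb_iff _ _).mp hc i i.2) j j.2)
    ((Z j)⁻¹ y : Fin 40) ((Z j)⁻¹ y : Fin 40).2
  have h' := Nat.eq_of_beq_eq_true h
  rw [← hZ j, ← hZ i, app_inv] at h'
  rw [Equiv.Perm.mul_apply]
  exact h'.symm

theorem N_family : ∀ g ∈ N, ∃ k < 27, Rep g CN k :=
  family_of_mem CN 27 n1 n2 rep_n1 rep_n2 check_CN_id (by norm_num) check_CN_closed

theorem H_family : ∀ g ∈ H, ∃ k < 60, Rep g CH k :=
  family_of_mem CH 60 h1 h2 rep_h1 rep_h2 check_CH_id (by norm_num) check_CH_closed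

theorem N_card : 27 ≤ Nat.card N :=
  family_card CN 27 n1 n2 rep_n1 rep_n2 check_CN_id check_CN_parent check_CN_distinct

theorem H_card : 60 ≤ Nat.card H :=
  family_card CH 60 h1 h2 rep_h1 rep_h2 check_CH_id check_CH_parent check_CH_distinct

theorem beq_false {a b : ℕ} (h : Nat.beq a b = false) : a ≠ b := by
  intro hab
  rw [beq_iff.mpr hab] at h
  simp at h

/-- Quotients of elements of `A`. -/
theorem quotA (n : P) (hn : n ∈ N) (i j : Fin 4) :
    (n = 1 ∧ i = j) ∨ Phi (n * (X i * (X j)⁻¹)) := by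
  obtain ⟨k, hk, hr⟩ := N_family n hn
  have h := (allb_iff _ _).mp ((allb_iff _ _).mp ((allb_iff _ _).mp check_A k hk) i i.2) j j.2
  cases hk0 : Nat.beq k 0 with
  | false =>
    rw [hk0] at h
    simp only [cond_false] at h
    right
    exact (phib_iff _ _ (fun y => hr.mul (rep_quot CX XY X rep_X check_XY i j) y)).mp h
  | true =>
    cases hij : Nat.beq i j with
    | false =>
      rw [hk0, hij] at h
      simp only [cond_true, cond_false] at h
      right
      exact (phib_iff _ _ (fun y => hr.mul (rep_quot CX XY X rep_X check_XY i j) y)).mp h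
    | true =>
      left
      have hk0' := Nat.eq_of_beq_eq_true hk0
      subst hk0'
      exact ⟨hr.unique (Rep.one check_CN_id), Fin.ext (Nat.eq_of_beq_eq_true hij)⟩

/-- Quotients of elements of `B`. -/
theorem quotB (n : P) (hn : n ∈ H) (i j : Fin 4) :
    (n = 1 ∧ i = j) ∨ (¬ Phi (n * (U i * (U j)⁻¹)) ∧ n * (U i * (U j)⁻¹) ≠ 1) := by
  obtain ⟨k, hk, hr⟩ := H_family n hn
  have h := (allb_iff _ _).mp ((allb_iff _ _).mp ((allb_iff _ _).mp check_B k hk) i i.2) j j.2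
  have aux : cond (phib fun y => ap CH k (ap UY (Nat.add (Nat.mul 4 i) j) y)) false
        (anyb 40 fun y => Bool.not
          (Nat.beq (ap CH k (ap UY (Nat.add (Nat.mul 4 i) j) y)) y)) = true →
      (¬ Phi (n * (U i * (U j)⁻¹)) ∧ n * (U i * (U j)⁻¹) ≠ 1) := by
    intro h
    have hm := hr.mul (rep_quot CU UY U rep_U check_UY i j)
    have hphi := phib_iff (n * (U i * (U j)⁻¹))
      (fun y => ap CH k (ap UY (4 * (i : ℕ) + (j : ℕ)) y)) hm
    cases hp : phib fun y => ap CH k (ap UY (Nat.add (Nat.mul 4 i) j) y) with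
    | true => rw [hp] at h; simp at h
    | false =>
      rw [hp] at h
      simp only [cond_false] at h
      refine ⟨?_, ?_⟩
      · intro hc
        have := hphi.mpr hc
        have h2 : phib (fun y => ap CH k (ap UY (4 * (i : ℕ) + (j : ℕ)) y)) = false := hp
        rw [h2] at this
        simp at this
      · intro hc
        obtain ⟨y, hy, h3⟩ := (anyb_iff _ _).mp h
        have h3' := not_beq.mp h3
        apply h3'
        have := hm ⟨y, hy⟩
        rw [hc] at this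
        exact this.symm
  cases hk0 : Nat.beq k 0 with
  | false =>
    rw [hk0] at h
    simp only [cond_false] at h
    exact Or.inr (aux h)
  | true =>
    cases hij : Nat.beq i j with
    | false =>
      rw [hk0, hij] at h
      simp only [cond_true, cond_false] at h
      exact Or.inr (aux h)
    | true =>
      left
      have hk0' := Nat.eq_of_beq_eq_true hk0
      subst hk0'
      exact ⟨hr.unique (Rep.one check_CH_id), Fin.ext (Nat.eq_of_beq_eq_true hij)⟩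

theorem not_Phi_one : ¬ Phi 1 := by
  have h : f1 1 = 40 := by
    unfold f1
    have : (Finset.univ.filter fun y : Fin 40 => (1 : P) y = y) = Finset.univ := by
      apply Finset.filter_true_of_mem
      intro y _
      rfl
    rw [this, Finset.card_univ, Fintype.card_fin]
  unfold Phi
  rw [h]
  norm_num

/-- The parametrisation. -/
def psi (g : G) (p : N × Fin 4 × H × Fin 4) : G :=
  (⟨(p.1 : P) * X p.2.1, G.mul_mem (N_le p.1.2) (X_mem _)⟩ : G)⁻¹ * g *
    ⟨(p.2.2.1 : P) * U p.2.2.2, G.mul_mem (H_le p.2.2.1.2) (U_mem _)⟩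

theorem psi_inj (g : G) : Function.Injective (psi g) := by
  rintro ⟨n, i, h, j⟩ ⟨n', i', h', j'⟩ heq
  have e0 : ((n : P) * X i)⁻¹ * (g : P) * ((h : P) * U j) =
      ((n' : P) * X i')⁻¹ * (g : P) * ((h' : P) * U j') := congrArg Subtype.val heq
  -- the basic relation
  have e1 : ((n' : P) * X i') * ((n : P) * X i)⁻¹ =
      (g : P) * (((h' : P) * U j') * ((h : P) * U j)⁻¹) * (g : P)⁻¹ := by
    have : ((n' : P) * X i') * (((n : P) * X i)⁻¹ * (g : P) * ((h : P) * U j)) *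
        ((h : P) * U j)⁻¹ * (g : P)⁻¹ = ((n' : P) * X i') * ((n : P) * X i)⁻¹ := by group
    rw [← this, e0]
    group
  -- left side
  have l1 : ((n' : P) * X i') * ((n : P) * X i)⁻¹ =
      (n : P) * (((n : P)⁻¹ * (n' : P)) * (X i' * (X i)⁻¹)) * (n : P)⁻¹ := by group
  have r1 : ((h' : P) * U j') * ((h : P) * U j)⁻¹ =
      (h : P) * (((h : P)⁻¹ * (h' : P)) * (U j' * (U j)⁻¹)) * (h : P)⁻¹ := by group
  have hL : Phi (((n' : P) * X i') * ((n : P) * X i)⁻¹) ↔
      Phi (((n : P)⁻¹ * (n' : P)) * (X i' * (X i)⁻¹)) := by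
    rw [l1]
    exact Phi_conj (N_le n.2) _
  have hR : Phi ((g : P) * (((h' : P) * U j') * ((h : P) * U j)⁻¹) * (g : P)⁻¹) ↔
      Phi (((h : P)⁻¹ * (h' : P)) * (U j' * (U j)⁻¹)) := by
    rw [Phi_conj g.2, r1]
    exact Phi_conj (H_le h.2) _
  have hn : (n : P)⁻¹ * (n' : P) ∈ N := N.mul_mem (N.inv_mem n.2) n'.2
  have hh : (h : P)⁻¹ * (h' : P) ∈ H := H.mul_mem (H.inv_mem h.2) h'.2
  rcases quotA _ hn i' i with ⟨a1, a2⟩ | hA
  · -- left trivial
    have nn : (n' : P) = n := by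
      rw [inv_mul_eq_one] at a1; exact a1.symm
    subst a2
    have L1 : ((n' : P) * X i') * ((n : P) * X i')⁻¹ = 1 := by rw [nn]; group
    rw [L1] at e1
    have R1 : ((h' : P) * U j') * ((h : P) * U j)⁻¹ = 1 := by
      have : (g : P)⁻¹ * 1 * (g : P) = ((h' : P) * U j') * ((h : P) * U j)⁻¹ := by
        rw [e1]; group
      rw [← this]; group
    rcases quotB _ hh j' j with ⟨b1, b2⟩ | ⟨_, hB⟩
    · have hh' : (h' : P) = h := by
        rw [inv_mul_eq_one] at b1; exact b1.symm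
      subst b2
      have en : n = n' := Subtype.ext nn.symm
      have eh : h = h' := Subtype.ext hh'.symm
      rw [en, eh]
    · exfalso
      apply hB
      rw [r1] at R1
      have : (h : P)⁻¹ * 1 * (h : P) = ((h : P)⁻¹ * (h' : P)) * (U j' * (U j)⁻¹) := by
        rw [← R1]; group
      rw [← this]; group
  · exfalso
    have hP : Phi (((h : P)⁻¹ * (h' : P)) * (U j' * (U j)⁻¹)) := by
      rw [← hR, ← e1, hL]
      exact hA
    rcases quotB _ hh j' j with ⟨b1, b2⟩ | ⟨hB, _⟩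
    · rw [b1, b2] at hP
      apply not_Phi_one
      have : (1 : P) * (U j * (U j)⁻¹) = 1 := by group
      rwa [this] at hP
    · exact hB hP

theorem psi_bij (g : G) : Function.Bijective (psi g) := by
  apply Function.Injective.bijective_of_nat_card_le (psi_inj g)
  have h1 := card_G_le
  have h2 := N_card
  have h3 := H_card
  have h4 : Nat.card (N × Fin 4 × H × Fin 4) = Nat.card N * (4 * (Nat.card H * 4)) := by
    rw [Nat.card_prod, Nat.card_prod, Nat.card_prod]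
    simp
  rw [h4]
  calc Nat.card G ≤ 25920 := h1
    _ = 27 * (4 * (60 * 4)) := by norm_num
    _ ≤ Nat.card N * (4 * (Nat.card H * 4)) := by gcongr

/-- The first subset. -/
def setA : Set G := {a | ∃ n ∈ N, ∃ i, (a : P) = n * X i}

/-- The second subset. -/
def setB : Set G := {b | ∃ h ∈ H, ∃ j, (b : P) = h * U j}

theorem exact_pair (g h : G) :
    Set.ncard ((fun a => g⁻¹ * a * h) '' setA ∩ setB) = 1 := by
  obtain ⟨⟨n, i, k, j⟩, hp⟩ := (psi_bij g).2 h
  have hp' : ((n : P) * X i)⁻¹ * (g : P) * ((k : P) * U j) = (h : P) := congrArg Subtype.val hp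
  rw [Set.ncard_eq_one]
  have hb0 : (⟨(k : P) * U j, G.mul_mem (H_le k.2) (U_mem _)⟩ : G) ∈ setB := ⟨k, k.2, j, rfl⟩
  refine ⟨⟨(k : P) * U j, G.mul_mem (H_le k.2) (U_mem _)⟩, ?_⟩
  apply Set.eq_singleton_iff_unique_mem.mpr
  refine ⟨⟨⟨⟨(n : P) * X i, G.mul_mem (N_le n.2) (X_mem _)⟩, ⟨n, n.2, i, rfl⟩, ?_⟩, hb0⟩, ?_⟩
  · apply Subtype.ext
    show (g : P)⁻¹ * ((n : P) * X i) * (h : P) = (k : P) * U j
    rw [← hp']; group
  · rintro b ⟨⟨a, ⟨n', hn', i', ha⟩, hab⟩, ⟨k', hk', j', hb⟩⟩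
    have hab' : (g : P)⁻¹ * (a : P) * (h : P) = (b : P) := congrArg Subtype.val hab
    have e : psi g (⟨n', hn'⟩, i', ⟨k', hk'⟩, j') = psi g (n, i, k, j) := by
      rw [hp]
      apply Subtype.ext
      show (n' * X i')⁻¹ * (g : P) * (k' * U j') = (h : P)
      rw [← ha, ← hb, ← hab']; group
    have e2 := psi_inj g e
    simp only [Prod.mk.injEq] at e2
    obtain ⟨_, _, e3, e4⟩ := e2
    apply Subtype.ext
    show (b : P) = (k : P) * U j
    rw [hb, ← e3, e4]

theorem not_coset_A : ¬ ∃ K : Subgroup G, ∃ x : G, setA = (fun y => x * y) '' (K : Set G) := by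
  rintro ⟨K, x, hK⟩
  have m1 : (1 : G) ∈ setA := ⟨1, N.one_mem, 0, by show (1 : P) = 1 * 1; rfl⟩
  have m2 : (⟨X 1, X_mem 1⟩ : G) ∈ setA := ⟨1, N.one_mem, 1, by show X 1 = 1 * X 1; rw [one_mul]⟩
  rw [hK] at m1 m2
  obtain ⟨a, ha, ha'⟩ := m1
  obtain ⟨b, hb, hb'⟩ := m2
  have m3 : (⟨X 1, X_mem 1⟩ : G)⁻¹ ∈ setA := by
    rw [hK]
    refine ⟨a * (b⁻¹ * a), K.mul_mem ha (K.mul_mem (K.inv_mem hb) ha), ?_⟩
    have ha'' : x * a = 1 := ha'
    have hb'' : x * b = ⟨X 1, X_mem 1⟩ := hb'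
    show x * (a * (b⁻¹ * a)) = _
    rw [← hb'', ← mul_assoc, ha'', one_mul, mul_inv_rev]
    have : x⁻¹ = a := by rw [inv_eq_iff_eq_inv, eq_inv_iff_mul_eq_one]; exact ha''
    rw [this]
  obtain ⟨n, hn, i, he⟩ := m3
  have he' : (X 1)⁻¹ = n * X i := he
  obtain ⟨k, hk, hr⟩ := N_family n hn
  obtain ⟨y, hy, h3⟩ := (anyb_iff _ _).mp ((allb_iff _ _).mp
    ((allb_iff _ _).mp check_ncA k hk) i i.2)
  have h3' := not_beq.mp h3
  apply h3'
  have e : n * (X i * X 1) = 1 := by rw [← mul_assoc, ← he']; group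
  have e2 := congrArg (fun p : P => ((p ⟨y, hy⟩ : Fin 40) : ℕ)) e
  simp only [Equiv.Perm.mul_apply] at e2
  rw [hr, rep_X i, rep_X 1] at e2
  exact e2

theorem not_coset_B : ¬ ∃ K : Subgroup G, ∃ x : G, setB = (fun y => x * y) '' (K : Set G) := by
  rintro ⟨K, x, hK⟩
  have hh1 : h1 ∈ H := Subgroup.subset_closure (by simp)
  have m1 : (1 : G) ∈ setB := ⟨1, H.one_mem, 0, by show (1 : P) = 1 * 1; rfl⟩
  have m2 : (⟨U 1, U_mem 1⟩ : G) ∈ setB := ⟨1, H.one_mem, 1, by show U 1 = 1 * U 1; rw [one_mul]⟩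
  have m3 : (⟨h1, H_le hh1⟩ : G) ∈ setB := ⟨h1, hh1, 0, by show h1 = h1 * 1; rw [mul_one]⟩
  rw [hK] at m1 m2 m3
  obtain ⟨a, ha, ha'⟩ := m1
  obtain ⟨b, hb, hb'⟩ := m2
  obtain ⟨c, hc, hc'⟩ := m3
  have ha'' : x * a = 1 := ha'
  have hb'' : x * b = ⟨U 1, U_mem 1⟩ := hb'
  have hc'' : x * c = ⟨h1, H_le hh1⟩ := hc'
  have m4 : (⟨U 1, U_mem 1⟩ : G) * ⟨h1, H_le hh1⟩ ∈ setB := by
    rw [hK]
    refine ⟨b * (a⁻¹ * c), K.mul_mem hb (K.mul_mem (K.inv_mem ha) hc), ?_⟩
    show x * (b * (a⁻¹ * c)) = _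
    have : x = a⁻¹ := by rw [eq_inv_iff_mul_eq_one]; exact ha''
    rw [← hb'', ← hc'', this]; group
  obtain ⟨n, hn, i, he⟩ := m4
  have he' : U 1 * h1 = n * U i := he
  obtain ⟨k, hk, hr⟩ := H_family n hn
  obtain ⟨y, hy, h3⟩ := (anyb_iff _ _).mp ((allb_iff _ _).mp
    ((allb_iff _ _).mp check_ncB k hk) i i.2)
  have h3' := not_beq.mp h3
  apply h3'
  have e2 := congrArg (fun p : P => ((p ⟨y, hy⟩ : Fin 40) : ℕ)) he'
  simp only [Equiv.Perm.mul_apply] at e2
  rw [rep_U 1, rep_h1, hr, rep_U i] at e2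
  exact e2

end Pool.Agent.MPb5696c
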