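import Pool.Agent.MP_b5696c_al.Order

/-!
The group generated by the transvections is simple.
-/

set_option autoImplicit false

namespace Pool.Agent.MPb5696c

/-- The transvections as elements of `G`. -/
def tau (y : Fin 40) : G := ⟨T y, T_mem y⟩

theorem tau_conj (g : G) (y : Fin 40) : g * tau y * g⁻¹ = tau ((g : P) y) :=
  Subtype.ext (G_conj g.2 y)

theorem tau_cube (y : Fin 40) : tau y * tau y * tau y = 1 :=
  Subtype.ext (T_cube y)

theorem tau_rel : tau 0 * tau 1 * tau 2 * tau 3 = 1 := by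
  apply Subtype.ext
  show T 0 * T 1 * T 2 * T 3 = 1
  ext y
  have h := (allb_iff _ _).mp check_rel y y.2
  exact Nat.eq_of_beq_eq_true h

theorem tau_ne_one : tau 0 ≠ 1 := by
  intro h
  have h1 : T 0 = 1 := congrArg Subtype.val h
  have h2 : T 0 13 = 13 := by rw [h1]; rfl
  revert h2
  decide +kernel

theorem normal_eq_top (K : Subgroup G) (hK : K.Normal) (hne : K ≠ ⊥) : K = ⊤ := by
  let R : Fin 40 → Fin 40 → Prop := fun y z => tau y * (tau z)⁻¹ ∈ K
  have Rrefl : ∀ y, R y y := fun y => by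
    show tau y * (tau y)⁻¹ ∈ K
    rw [mul_inv_cancel]; exact K.one_mem
  have Rsymm : ∀ y z, R y z → R z y := fun y z h => by
    have := K.inv_mem h
    rwa [mul_inv_rev, inv_inv] at this
  have Rtrans : ∀ x y z, R x y → R y z → R x z := fun x y z h1 h2 => by
    have := K.mul_mem h1 h2
    rwa [mul_assoc, inv_mul_cancel_left] at this
  have Rconj : ∀ (g : G) y z, R y z → R ((g : P) y) ((g : P) z) := fun g y z h => by
    show tau _ * (tau _)⁻¹ ∈ K
    rw [← tau_conj, ← tau_conj]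
    have := hK.conj_mem _ h g
    convert this using 1
    group
  have Rconj' : ∀ (g : G) y z, R ((g : P) y) ((g : P) z) → R y z := fun g y z h => by
    have := Rconj g⁻¹ _ _ h
    have e1 : (((g⁻¹ : G) : P)) ((g : P) y) = y := inv_app _ _
    have e2 : (((g⁻¹ : G) : P)) ((g : P) z) = z := inv_app _ _
    rwa [e1, e2] at this
  -- a nontrivial pair
  obtain ⟨⟨k, hk⟩, hk1'⟩ := Subgroup.ne_bot_iff_exists_ne_one.mp hne
  have hk1 : k ≠ 1 := fun h' => hk1' (Subtype.ext h')
  obtain ⟨x, hx⟩ : ∃ x : Fin 40, (k : P) x ≠ x := by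
    by_contra hc
    push Not at hc
    apply hk1
    apply Subtype.ext
    ext y
    rw [hc y]
    rfl
  have hR1 : R ((k : P) x) x := by
    show tau _ * (tau _)⁻¹ ∈ K
    rw [← tau_conj]
    have h1 := hK.conj_mem _ (K.inv_mem hk) (tau x)
    have h2 := K.mul_mem hk h1
    convert h2 using 1
    group
  obtain ⟨g, hg, hgx⟩ := transitive x
  have hR2 : R ((((⟨g, hg⟩ : G)⁻¹ : G) : P) ((k : P) x)) 0 := by
    have := Rconj (⟨g, hg⟩ : G)⁻¹ _ _ hR1
    have e : ((((⟨g, hg⟩ : G)⁻¹ : G) : P)) x = 0 := by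
      rw [← hgx]; exact inv_app g 0
    rwa [e] at this
  set y : Fin 40 := (((⟨g, hg⟩ : G)⁻¹ : G) : P) ((k : P) x) with hy
  have hy0 : y ≠ 0 := by
    intro hc
    apply hx
    have : g y = (k : P) x := app_inv g _
    rw [← this, hc, hgx]
  -- the class of `0`
  have hfix : ∀ w c : Fin 40, R c 0 → T w c = c → ∀ z, R z 0 ↔ R (T w z) 0 := by
    intro w c hc hw z
    constructor
    · intro h
      have h1 := Rconj (tau w) z c (Rtrans _ _ _ h (Rsymm _ _ hc))
      have h2 : ((tau w : G) : P) c = c := hw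
      rw [h2] at h1
      exact Rtrans _ _ _ h1 hc
    · intro h
      have h1 : R (((tau w : G) : P) z) (((tau w : G) : P) c) := by
        have h2 : ((tau w : G) : P) c = c := hw
        rw [h2]
        exact Rtrans _ _ _ h (Rsymm _ _ hc)
      exact Rtrans _ _ _ (Rconj' _ _ _ h1) hc
  have h00 := Rrefl 0
  obtain ⟨c, hc0, hc13⟩ : ∃ c, R c 0 ∧ T 13 c = c := by
    have h1 := (allb_iff _ _).mp check_prim y y.2
    have hb : Nat.beq y 0 = false := by
      cases h' : Nat.beq y 0 with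
      | false => rfl
      | true => exact absurd (Fin.ext (Nat.eq_of_beq_eq_true h')) hy0
    rw [hb] at h1
    simp only [cond_false] at h1
    obtain ⟨a, ha, h2⟩ := (anyb_iff _ _).mp h1
    obtain ⟨b, hb', h3⟩ := (anyb_iff _ _).mp h2
    cases ha0 : Nat.beq (op a 0) 0 with
    | false => rw [ha0] at h3; simp at h3
    | true =>
      cases hb0 : Nat.beq (op b 0) 0 with
      | false => rw [ha0, hb0] at h3; simp at h3
      | true =>
        rw [ha0, hb0] at h3
        simp only [cond_true] at h3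
        have h3' := Nat.eq_of_beq_eq_true h3
        have ha0' : T ⟨a, ha⟩ 0 = 0 := Fin.ext (Nat.eq_of_beq_eq_true ha0)
        have hb0' : T ⟨b, hb'⟩ 0 = 0 := Fin.ext (Nat.eq_of_beq_eq_true hb0)
        refine ⟨T ⟨a, ha⟩ (T ⟨b, hb'⟩ y), ?_, Fin.ext h3'⟩
        exact (hfix _ 0 h00 ha0' _).mp ((hfix _ 0 h00 hb0' _).mp hR2)
  have hgen : ∀ i : Fin 4, ∀ z, R z 0 ↔ R (T (bF i) z) 0 := by
    intro i
    have t0 : T 0 0 = 0 := by decide +kernel
    have t2 : T 2 0 = 0 := by decide +kernel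
    have t6 : T 6 0 = 0 := by decide +kernel
    fin_cases i
    · exact hfix 0 0 h00 t0
    · exact hfix 13 c hc0 hc13
    · exact hfix 2 0 h00 t2
    · exact hfix 6 0 h00 t6
  have hall : ∀ g : P, g ∈ G → ∀ z, R z 0 ↔ R (g z) 0 := by
    intro g hg
    induction hg using Subgroup.closure_induction with
    | mem x hx =>
      obtain ⟨i, rfl⟩ := hx
      exact hgen i
    | one => intro z; rfl
    | mul a b _ _ iha ihb =>
      intro z
      rw [Equiv.Perm.mul_apply, ihb z, iha (b z)]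
    | inv a _ ih =>
      intro z
      rw [ih (a⁻¹ z), app_inv]
  have hR0 : ∀ z, R z 0 := by
    intro z
    obtain ⟨g, hg, hz⟩ := transitive z
    rw [← hz]
    exact (hall g hg 0).mp h00
  -- pass to the quotient
  have hq : ∀ z, (QuotientGroup.mk (tau z) : G ⧸ K) = QuotientGroup.mk (tau 0) := by
    intro z
    have h := Rconj
    have h1 : tau z * (tau 0)⁻¹ ∈ K := hR0 z
    have h2 : ((tau z * (tau 0)⁻¹ : G) : G ⧸ K) = 1 := (QuotientGroup.eq_one_iff _).mpr h1
    rw [QuotientGroup.mk_mul, QuotientGroup.mk_inv, mul_inv_eq_one] at h2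
    exact h2
  have hq3 : (QuotientGroup.mk (tau 0) : G ⧸ K) * QuotientGroup.mk (tau 0)
      * QuotientGroup.mk (tau 0) = 1 := by
    rw [← QuotientGroup.mk_mul, ← QuotientGroup.mk_mul, tau_cube]
    rfl
  have hq4 : (QuotientGroup.mk (tau 0) : G ⧸ K) * QuotientGroup.mk (tau 0)
      * QuotientGroup.mk (tau 0) * QuotientGroup.mk (tau 0) = 1 := by
    have h := congrArg (QuotientGroup.mk : G → G ⧸ K) tau_rel
    rw [QuotientGroup.mk_mul, QuotientGroup.mk_mul, QuotientGroup.mk_mul, hq 1, hq 2, hq 3] at h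
    exact h
  rw [hq3, one_mul] at hq4
  have hmem : ∀ z, tau z ∈ K := by
    intro z
    rw [← QuotientGroup.eq_one_iff, hq z, hq4]
  rw [eq_top_iff]
  have hle : G ≤ K.map G.subtype := by
    unfold G
    rw [Subgroup.closure_le]
    rintro _ ⟨i, rfl⟩
    exact ⟨tau (bF i), hmem _, rfl⟩
  rintro ⟨g, hg⟩ _
  obtain ⟨g', hg', he⟩ := hle hg
  have : g' = ⟨g, hg⟩ := Subtype.ext he
  rwa [← this]

theorem G_simple : IsSimpleGroup G where
  exists_pair_ne := ⟨tau 0, 1, tau_ne_one⟩
  eq_bot_or_eq_top_of_normal K hK := by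
    by_cases h : K = ⊥
    · exact Or.inl h
    · exact Or.inr (normal_eq_top K hK h)

end Pool.Agent.MPb5696c
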